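import Pool.Agent.H102Z.Lcs.Main

namespace Pool.Agent.Results.MP_21e463_al.Rational

/-- For the free complex superalgebra on `m` even and `n` odd generators and every `k ≥ 3`, the
multigraded Hilbert series `h` of `L_k/L_{k+1}`, multiplied in the ring of formal power series by
`∏ (1 - u_i) ∏ (1 - v_j)`, is a polynomial. -/
theorem result (m n : ℕ) (L : ℕ → Submodule ℂ (FreeAlgebra ℂ (Fin m ⊕ Fin n)))
    (G : ((Fin m ⊕ Fin n) →₀ ℕ) → Submodule ℂ (FreeAlgebra ℂ (Fin m ⊕ Fin n)))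
    (hG : ∀ d : (Fin m ⊕ Fin n) →₀ ℕ, G d = Submodule.span ℂ
        ((fun w : FreeMonoid (Fin m ⊕ Fin n) =>
            FreeMonoid.lift (fun x => FreeAlgebra.ι ℂ x) w) ''
          {w : FreeMonoid (Fin m ⊕ Fin n) |
            Multiset.toFinsupp (↑(FreeMonoid.toList w) : Multiset (Fin m ⊕ Fin n)) = d}))
    (h1 : L 1 = ⊤)
    (hL : ∀ k : ℕ, 1 ≤ k → L (k + 1) = Submodule.span ℂ
        {x : FreeAlgebra ℂ (Fin m ⊕ Fin n) |
          ∃ (w : FreeMonoid (Fin m ⊕ Fin n)) (d : (Fin m ⊕ Fin n) →₀ ℕ)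
            (b : FreeAlgebra ℂ (Fin m ⊕ Fin n)),
            b ∈ L k ⊓ G d ∧
            x = FreeMonoid.lift (fun x => FreeAlgebra.ι ℂ x) w * b -
              ((-1 : ℂ) ^ ((∑ j : Fin n,
                  (Multiset.toFinsupp (↑(FreeMonoid.toList w) : Multiset (Fin m ⊕ Fin n)))
                    (Sum.inr j)) * ∑ j : Fin n, d (Sum.inr j))) •
                (b * FreeMonoid.lift (fun x => FreeAlgebra.ι ℂ x) w)})
    (k : ℕ) (hk : 3 ≤ k) (h : MvPowerSeries (Fin m ⊕ Fin n) ℤ)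
    (hh : ∀ d, MvPowerSeries.coeff d h =
      (Module.finrank ℂ (L k ⊓ G d : Submodule ℂ (FreeAlgebra ℂ (Fin m ⊕ Fin n))) : ℤ) -
        (Module.finrank ℂ (L (k + 1) ⊓ G d : Submodule ℂ (FreeAlgebra ℂ (Fin m ⊕ Fin n))) : ℤ)) :
    ∃ p : MvPolynomial (Fin m ⊕ Fin n) ℤ,
      h * ∏ s : Fin m ⊕ Fin n, (1 - MvPowerSeries.X s) = (p : MvPowerSeries (Fin m ⊕ Fin n) ℤ) :=
  H102Z.Lcs.rational m n L G hG h1 hL k hk h hh

end Pool.Agent.Results.MP_21e463_al.Rational
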